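import Mathlib
import Pool.Agent.W148.HypoFin
import Pool.Agent.W148.HypoCyc

set_option autoImplicit false

namespace Pool.Agent.Results.MP_850d4c_co.InfinitelyMany

open SimpleGraph

/-- `G` is cyclically 4-edge-connected: it is connected, and after the deletion of fewer than four
edges any two cycles lie in the same component. -/
def CyclicallyFourEdgeConnected {V : Type} (G : SimpleGraph V) : Prop :=
  G.Connected ∧ ∀ F : Finset (Sym2 V), F.card < 4 →
    ∀ (u v : V) (p : (G.deleteEdges (F : Set (Sym2 V))).Walk u u)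
      (q : (G.deleteEdges (F : Set (Sym2 V))).Walk v v),
      p.IsCycle → q.IsCycle → (G.deleteEdges (F : Set (Sym2 V))).Reachable u v

/-- `G` is a snark: cubic, cyclically 4-edge-connected, of girth at least 5, and not
3-edge-colourable. -/
def IsSnark {V : Type} [Fintype V] (G : SimpleGraph V) : Prop :=
  (∀ v, (G.neighborSet v).ncard = 3) ∧ CyclicallyFourEdgeConnected G ∧ 5 ≤ G.egirth ∧
    ¬ G.lineGraph.Colorable 3

open Classical in
/-- `G` is hypohamiltonian: `G` has no Hamilton cycle, but `G - v` has one for every vertex `v`. -/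
def IsHypohamiltonian {V : Type} [Fintype V] (G : SimpleGraph V) : Prop :=
  ¬ G.IsHamiltonian ∧ ∀ v, (G.induce {w | w ≠ v}).IsHamiltonian

/-- `mu3 G`: the least number of edges that three perfect matchings of `G` leave uncovered. -/
noncomputable def mu3 {V : Type} (G : SimpleGraph V) : ℕ :=
  sInf {k | ∃ M₁ M₂ M₃ : G.Subgraph, M₁.IsPerfectMatching ∧ M₂.IsPerfectMatching ∧
    M₃.IsPerfectMatching ∧ k = (G.edgeSet \ (M₁.edgeSet ∪ M₂.edgeSet ∪ M₃.edgeSet)).ncard}

open Pool.Agent.W148.Hypo

theorem reach_list {V : Type} {G : SimpleGraph V} : ∀ (l : List V), l.IsChain G.Adj →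
    ∀ u ∈ l, ∀ w ∈ l, G.Reachable u w := by
  intro l
  induction l with
  | nil => intro _ u hu; simp at hu
  | cons a l ih =>
    intro h
    have ha : ∀ w ∈ l, G.Reachable a w := by
      intro w hw
      rcases l with _ | ⟨b, l⟩
      · simp at hw
      · have h2 := List.isChain_cons_cons.1 h
        exact h2.1.reachable.trans (ih h2.2 b (List.mem_cons_self ..) w hw)
    have hl : l.IsChain G.Adj := h.tail
    intro u hu w hw
    rw [List.mem_cons] at hu hw
    rcases hu with rfl | hu <;> rcases hw with rfl | hw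
    · exact Reachable.refl _
    · exact ha w hw
    · exact (ha u hu).symm
    · exact ih hl u hu w hw

theorem cyc_two {V : Type} {G' : SimpleGraph V} {z : V} (r : G'.Walk z z) (hr : r.IsCycle)
    (v : V) : ∃ x, x ≠ v ∧ G'.Reachable z x := by
  by_cases hzv : z = v
  · subst hzv
    have h3 := hr.three_le_length
    have hadj := r.adj_getVert_succ (i := 0) (by omega)
    rw [Walk.getVert_zero] at hadj
    exact ⟨_, hadj.ne', hadj.reachable⟩
  · exact ⟨z, hzv, Reachable.refl _⟩

theorem inv_facts {V : Type} [Fintype V] (G : SimpleGraph V) (k : ℕ)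
    (hcard : Fintype.card V = 2 * (k + 2)) (h : Inv G) :
    IsSnark G ∧ IsHypohamiltonian G ∧ 4 ≤ mu3 G := by
  classical
  obtain ⟨n, hn⟩ := h.nb
  -- not Hamiltonian
  have hnh : ¬ G.IsHamiltonian := by
    intro hh
    obtain ⟨f, h1, h2⟩ := Pool.Agent.Helper201.Hypo.col_of_ham G n hn.1 (k + 2) hcard
      (by omega) hh
    exact h.col f h1 h2
  have hnl : ¬ ∃ l, Cyc G l ∧ ∀ w, w ∈ l := by
    rintro ⟨l, h1, h2⟩
    exact hnh (ham_of_cyc G l h1 h2 (by omega))
  have hdel : ∀ v, ∃ l, Cyc G l ∧ 3 ≤ l.length ∧ ∀ w, w ∈ l ↔ w ≠ v := by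
    intro v
    obtain ⟨l, h1, h2⟩ := h.del v
    refine ⟨l, h1, ?_, h2⟩
    have h3 : l.toFinset = Finset.univ.erase v := by
      ext w
      simp [h2 w]
    have h4 := List.toFinset_card_of_nodup h1.1
    rw [h3, Finset.card_erase_of_mem (Finset.mem_univ _), Finset.card_univ] at h4
    omega
  have hpos : 0 < Fintype.card V := by omega
  obtain ⟨v0⟩ := Fintype.card_pos_iff.1 hpos
  have hconn : G.Connected := by
    rw [connected_iff]
    refine ⟨?_, ⟨v0⟩⟩
    intro u w
    obtain ⟨z, hz⟩ : ∃ z, z ∉ ({u, w} : Finset V) := by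
      by_contra hc
      push Not at hc
      have h1 : (Finset.univ : Finset V) ⊆ {u, w} := fun z _ => hc z
      have h2 := Finset.card_le_card h1
      have h3 : ({u, w} : Finset V).card ≤ 2 := Finset.card_le_two
      rw [Finset.card_univ] at h2
      omega
    rw [Finset.mem_insert, Finset.mem_singleton, not_or] at hz
    obtain ⟨l, h1, -, h2⟩ := hdel z
    exact reach_list l h1.2.1 u ((h2 u).2 (Ne.symm hz.1)) w ((h2 w).2 (Ne.symm hz.2))
  refine ⟨⟨?_, ⟨hconn, ?_⟩, ?_, ?_⟩, ⟨?_, ?_⟩, ?_⟩
  · -- cubic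
    intro v
    have h1 : G.neighborSet v = ((Finset.univ.image (n v) : Finset V) : Set V) := by
      ext w
      rw [mem_neighborSet, hn.1]
      simp only [Finset.coe_image, Finset.coe_univ, Set.image_univ, Set.mem_range]
      constructor
      · rintro ⟨i, hi⟩
        exact ⟨i, hi.symm⟩
      · rintro ⟨i, hi⟩
        exact ⟨i, hi.symm⟩
    rw [h1, Set.ncard_coe_finset, Finset.card_image_of_injective _ (hn.2 v)]
    rfl
  · -- cyclically 4-edge-connected
    intro F hF u v p q hp hq
    by_contra hcon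
    let X : V → Prop := fun w => (G.deleteEdges (F : Set (Sym2 V))).Reachable u w
    have hX : ∀ v, ∃ x, x ≠ v ∧ X x := cyc_two p hp
    have hY : ∀ z, ∃ y, y ≠ z ∧ ¬ X y := by
      intro z
      obtain ⟨y, h1, h2⟩ := cyc_two q hq z
      exact ⟨y, h1, fun h3 => hcon (h3.trans h2.symm)⟩
    have h4 := cut_four G hnl hdel X hX hY v0
    have hmap : ∀ e ∈ {e : V × V | X e.1 ∧ ¬ X e.2 ∧ G.Adj e.1 e.2},
        s(e.1, e.2) ∈ (F : Set (Sym2 V)) := by
      rintro ⟨s, t⟩ ⟨h1, h2, h3⟩
      by_contra hc
      apply h2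
      have h5 : (G.deleteEdges (F : Set (Sym2 V))).Adj s t := deleteEdges_adj.2 ⟨h3, hc⟩
      exact Reachable.trans h1 h5.reachable
    have hinj : Set.InjOn (fun e : V × V => s(e.1, e.2))
        {e : V × V | X e.1 ∧ ¬ X e.2 ∧ G.Adj e.1 e.2} := by
      rintro ⟨s, t⟩ ⟨h1, h2, -⟩ ⟨s', t'⟩ ⟨h1', h2', -⟩ heq
      rw [Sym2.eq_iff] at heq
      rcases heq with ⟨h5, h6⟩ | ⟨h5, h6⟩
      · exact Prod.ext h5 h6
      · exfalso
        apply h2'
        have : s = t' := h5
        rw [← this]
        exact h1
    have h5 := Set.ncard_le_ncard_of_injOn _ hmap hinj (Finset.finite_toSet F)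
    rw [Set.ncard_coe_finset] at h5
    omega
  · -- girth at least five
    rw [le_egirth]
    intro a p hp
    have h3 := hp.three_le_length
    by_contra hcon
    have hlt : p.length < 5 := by
      by_contra h5
      push Not at h5
      exact hcon (by exact_mod_cast h5)
    have hinj := hp.getVert_injOn'
    have hadj : ∀ i, i < p.length → G.Adj (p.getVert i) (p.getVert (i + 1)) :=
      fun i hi => p.adj_getVert_succ hi
    have hend : p.getVert p.length = p.getVert 0 := by
      rw [Walk.getVert_length, Walk.getVert_zero]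
    have h34 : p.length = 3 ∨ p.length = 4 := by omega
    rcases h34 with h34 | h34
    · rw [h34] at hend
      have h1 := hadj 0 (by omega)
      have h2 := hadj 1 (by omega)
      have h3' := hadj 2 (by omega)
      have h4' : G.Adj (p.getVert 2) (p.getVert 0) := by
        rw [← hend]; exact h3'
      exact no_tri h.c3 h1 h2 h4'
    · rw [h34] at hend
      have h1 := hadj 0 (by omega)
      have h2 := hadj 1 (by omega)
      have h3' := hadj 2 (by omega)
      have h4' : G.Adj (p.getVert 3) (p.getVert 0) := by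
        rw [← hend]; exact hadj 3 (by omega)
      apply no_quad h.c4 h1 h2 h3' h4'
      · intro heq
        have := hinj (show (0 : ℕ) ∈ {i | i ≤ p.length - 1} by simp)
          (show (2 : ℕ) ∈ {i | i ≤ p.length - 1} by simp; omega) heq
        omega
      · intro heq
        have := hinj (show (1 : ℕ) ∈ {i | i ≤ p.length - 1} by simp; omega)
          (show (3 : ℕ) ∈ {i | i ≤ p.length - 1} by simp; omega) heq
        omega
  · -- class 2
    rintro ⟨C⟩
    let g : V → V → Fin 3 := fun x y => if h : G.Adj x y then C ⟨s(x, y), h⟩ else 0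
    have hg : ∀ x y (h : G.Adj x y), g x y = C ⟨s(x, y), h⟩ := fun x y h => dif_pos h
    apply h.col g
    · intro v w h
      rw [hg v w h, hg w v h.symm]
      congr 1
      exact Subtype.ext Sym2.eq_swap
    · intro v w x hw hx hwx
      rw [hg v w hw, hg v x hx]
      apply C.valid
      rw [lineGraph_adj_iff_exists]
      refine ⟨?_, v, by simp, by simp⟩
      intro h
      have h3 : s(v, w) = s(v, x) := congrArg Subtype.val h
      rw [Sym2.eq_iff] at h3
      rcases h3 with ⟨_, h3⟩ | ⟨h3, _⟩
      · exact hwx h3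
      · exact hx.ne h3
  · intro hh
    apply hnh
    convert hh
  · intro v
    obtain ⟨l, h1, -, h2⟩ := hdel v
    exact ham_del_of_cyc G v l h1 h2 (by omega)
  · -- three perfect matchings
    apply le_csInf
    · obtain ⟨m, hm1, hm2⟩ := h.pm
      let M : G.Subgraph := {
        verts := Set.univ
        Adj := fun v w => m v = w
        adj_sub := by
          rintro v w rfl
          exact hm2 v
        edge_vert := fun _ => Set.mem_univ _
        symm := ⟨by
          rintro v w rfl
          exact hm1 v⟩ }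
      have hM : M.IsPerfectMatching := by
        rw [Subgraph.isPerfectMatching_iff]
        intro v
        exact ⟨m v, rfl, fun w hw => Eq.symm (show m v = w from hw)⟩
      exact ⟨_, M, M, M, hM, hM, hM, rfl⟩
    · rintro b ⟨M₁, M₂, M₃, h₁, h₂, h₃, rfl⟩
      exact mu_four G n hn h.c4 h.c6 h.col M₁ M₂ M₃ h₁ h₂ h₃

/-- There are infinitely many hypohamiltonian snarks `G` with `mu3 G ≥ 4`: one on `66 + 32 k`
vertices for every `k`. -/
theorem result : ∀ k : ℕ, ∃ (V : Type) (_ : Fintype V) (G : SimpleGraph V),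
    Fintype.card V = 66 + 32 * k ∧ IsSnark G ∧ IsHypohamiltonian G ∧ 4 ≤ mu3 G := by
  intro k
  obtain ⟨V, i, G, h1, h2⟩ := family k
  exact ⟨V, i, G, h2, inv_facts G (31 + 16 * k) (by rw [h2]; ring) h1⟩

end Pool.Agent.Results.MP_850d4c_co.InfinitelyMany
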